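import Pool.Agent.Helper56.RZ.GoalsD

/-!
# Project RZ, packet DF: a family of discs in a chart
-/

set_option autoImplicit false

open Set Filter Topology MeasureTheory

open scoped ContDiff

open Pool.Agent.Helper56.RZ

namespace Pool.Agent.Helper55.RZ

/-- linear coordinates adapted to a projection -/
theorem coords {N K u : ℕ} (D0 : E N →L[ℝ] E K) (F0 : E K →L[ℝ] E N) (T A : End K)
    (h3 : ∀ x, D0 (F0 (T x)) = T x) (hTA : ∀ x, T (A x) = A x) (hAT : ∀ x, A (T x) = A x)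
    (hA : ∀ x, A (A x) = A x)
    (hr : Module.finrank ℝ (LinearMap.range (A : E K →ₗ[ℝ] E K)) = u) :
    ∃ (w : ℕ) (Ξ : (E u × E w) ≃L[ℝ] E N), ∀ a : E u, A (D0 (Ξ (a, 0))) = D0 (Ξ (a, 0)) := by
  have hDF : ∀ x, D0 (F0 (A x)) = A x := fun x => by
    rw [← hTA x]
    exact h3 _
  obtain ⟨p, hp⟩ : ∃ p : E N →ₗ[ℝ] E N, ∀ x, p x = F0 (A (D0 x)) :=
    ⟨((F0 ∘L A ∘L D0 : End N) : E N →ₗ[ℝ] E N), fun x => rfl⟩
  have hpp : IsIdempotentElem p := by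
    ext1 x
    change p (p x) = p x
    rw [hp, hp, hDF, hA]
  have hc : IsCompl (LinearMap.range p) (LinearMap.ker p) :=
    LinearMap.IsIdempotentElem.isCompl hpp
  have hru : Module.finrank ℝ (LinearMap.range p) = u := by
    rw [← hr]
    refine le_antisymm ?_ ?_
    · have h1 : LinearMap.range p ≤
          Submodule.map (F0 : E K →ₗ[ℝ] E N) (LinearMap.range (A : E K →ₗ[ℝ] E K)) := by
        rintro _ ⟨x, rfl⟩
        exact ⟨A (D0 x), ⟨D0 x, rfl⟩, (hp x).symm⟩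
      exact (Submodule.finrank_mono h1).trans (Submodule.finrank_map_le _ _)
    · have h1 : LinearMap.range (A : E K →ₗ[ℝ] E K) ≤
          Submodule.map (D0 : E N →ₗ[ℝ] E K) (LinearMap.range p) := by
        rintro _ ⟨x, rfl⟩
        refine ⟨p (F0 (T x)), ⟨F0 (T x), rfl⟩, ?_⟩
        change D0 (p (F0 (T x))) = A x
        rw [hp, h3, hDF, hAT]
      exact (Submodule.finrank_mono h1).trans (Submodule.finrank_map_le _ _)
  have e1 : E u ≃ₗ[ℝ] LinearMap.range p := LinearEquiv.ofFinrankEq _ _ (by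
    rw [hru]; simp)
  have e2 : E (Module.finrank ℝ (LinearMap.ker p)) ≃ₗ[ℝ] LinearMap.ker p :=
    LinearEquiv.ofFinrankEq _ _ (by simp)
  refine ⟨Module.finrank ℝ (LinearMap.ker p), ((LinearEquiv.prodCongr e1 e2).trans
    (Submodule.prodEquivOfIsCompl _ _ hc)).toContinuousLinearEquiv, fun a => ?_⟩
  have h1 : (((LinearEquiv.prodCongr e1 e2).trans
    (Submodule.prodEquivOfIsCompl _ _ hc)).toContinuousLinearEquiv) (a, 0) = (e1 a : E N) := by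
    change ((e1 a : E N) + (e2 0 : E N)) = _
    rw [map_zero]
    simp
  rw [h1]
  obtain ⟨x, hx⟩ := (e1 a).2
  rw [← hx, hp, hDF, hA]

lemma rank_close {K : ℕ} (P Q : End K) (hP : ∀ x, P (P x) = P x) (h : ‖P - Q‖ < 1) :
    Module.finrank ℝ (LinearMap.range (P : E K →ₗ[ℝ] E K)) ≤
      Module.finrank ℝ (LinearMap.range (Q : E K →ₗ[ℝ] E K)) := by
  refine LinearMap.finrank_le_finrank_of_injective
    (f := (Q : E K →ₗ[ℝ] E K).rangeRestrict.comp (LinearMap.range (P : E K →ₗ[ℝ] E K)).subtype) ?_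
  rw [← LinearMap.ker_eq_bot, LinearMap.ker_eq_bot']
  rintro ⟨_, ⟨v, rfl⟩⟩ hv
  have hv' : Q (P v) = 0 := congrArg Subtype.val hv
  have h2 : ‖P v‖ ≤ ‖P - Q‖ * ‖P v‖ := by
    calc ‖P v‖ = ‖(P - Q) (P v)‖ := by
          rw [sub_apply, hv', sub_zero, hP]
      _ ≤ _ := ContinuousLinearMap.le_opNorm _ _
  have h3 : ‖P v‖ = 0 := by
    by_contra hne
    have : 0 < ‖P v‖ := lt_of_le_of_ne (norm_nonneg _) (Ne.symm hne)
    nlinarith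
  have h4 : P v = 0 := norm_eq_zero.mp h3
  exact Subtype.ext h4

/-- the cone estimate at one pair of points -/
theorem cone_est {K : ℕ} (S S0 U U0 : End K) (y v : E K) (c0 ε1 n Cu : ℝ)
    (hU0 : U0 y = y) (hS0 : S0 y = 0) (hS : ‖S - S0‖ ≤ 1 / 6) (hU : ‖U - U0‖ ≤ 1 / 12)
    (_ : 0 < c0) (hn : 0 ≤ n) (hy : c0 * n ≤ ‖y‖) (hyu : ‖y‖ ≤ Cu * n)
    (hv : ‖v - y‖ ≤ ε1 * n) (hε : ε1 * (2 * (‖S0‖ + ‖U0‖ + 1)) ≤ c0) (hε0 : 0 ≤ ε1) :
    c0 / 2 * n ≤ ‖v‖ ∧ ‖v‖ ≤ 2 * Cu * n ∧ ‖S v‖ ≤ ‖U v‖ := by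
  have hSn := norm_nonneg S0
  have hUn := norm_nonneg U0
  have hε2 : 2 * ε1 ≤ c0 := by nlinarith
  have hvy : 2 * ‖v - y‖ ≤ ‖y‖ := by nlinarith
  have hvy2 : 2 * (‖S0‖ + ‖U0‖) * ‖v - y‖ ≤ ‖y‖ := by
    have h1 : 2 * (‖S0‖ + ‖U0‖) * ‖v - y‖ ≤ 2 * (‖S0‖ + ‖U0‖) * (ε1 * n) :=
      mul_le_mul_of_nonneg_left hv (by positivity)
    nlinarith
  have e1 : ‖v‖ ≤ ‖y‖ + ‖v - y‖ := by
    have := norm_add_le y (v - y)
    rwa [add_sub_cancel] at this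
  have e2 : ‖y‖ ≤ ‖v‖ + ‖v - y‖ := by
    have := norm_sub_le v (v - y)
    rwa [sub_sub_cancel] at this
  refine ⟨by nlinarith, by nlinarith, ?_⟩
  have f1 : ‖S v‖ ≤ ‖S - S0‖ * ‖v‖ + ‖S0‖ * ‖v - y‖ := by
    have h1 : S v = (S - S0) v + S0 (v - y) := by
      rw [sub_apply, map_sub, hS0]
      abel
    rw [h1]
    exact (norm_add_le _ _).trans (add_le_add (ContinuousLinearMap.le_opNorm _ _)
      (ContinuousLinearMap.le_opNorm _ _))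
  have f2 : ‖y‖ ≤ ‖U v‖ + ‖U - U0‖ * ‖v‖ + ‖U0‖ * ‖v - y‖ := by
    have h1 : y = U v - (U - U0) v - U0 (v - y) := by
      rw [sub_apply, map_sub, hU0]
      abel
    have h2 : ‖y‖ ≤ ‖U v‖ + ‖(U - U0) v‖ + ‖U0 (v - y)‖ := by
      conv_lhs => rw [h1]
      refine (norm_sub_le _ _).trans ?_
      have := norm_sub_le (U v) ((U - U0) v)
      linarith
    have h3 := ContinuousLinearMap.le_opNorm (U - U0) v
    have h4 := ContinuousLinearMap.le_opNorm U0 (v - y)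
    linarith
  have hvn := norm_nonneg v
  have g1 : ‖S - S0‖ * ‖v‖ ≤ 1 / 6 * ‖v‖ := mul_le_mul_of_nonneg_right hS hvn
  have g2 : ‖U - U0‖ * ‖v‖ ≤ 1 / 12 * ‖v‖ := mul_le_mul_of_nonneg_right hU hvn
  nlinarith

/-- DF -/
theorem df (hT1 : StmtT1) : StmtDF := by
  intro N K u M m f f' P hV _ hPH c z0 hz0 hru
  obtain ⟨hxM, hxW⟩ := c.mapsψ z0 hz0
  obtain ⟨x0, hx0⟩ : ∃ x0, x0 = c.ψ z0 := ⟨_, rfl⟩
  rw [← hx0] at hru hxM
  obtain ⟨D0, hD0⟩ : ∃ D0, D0 = fderiv ℝ c.ψ z0 := ⟨_, rfl⟩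
  obtain ⟨F0, hF0⟩ : ∃ F0, F0 = fderiv ℝ c.φ (c.ψ z0) := ⟨_, rfl⟩
  obtain ⟨t1, t2, t3⟩ := hT1 N K M c z0 hz0
  rw [← hF0, ← hD0] at t1
  rw [← hD0] at t2
  rw [← hF0, ← hD0] at t3
  rw [← hx0] at t2 t3
  have t1' : ∀ x, F0 (D0 x) = x := fun x => DFunLike.congr_fun t1 x
  have t2' : ∀ x, Pi M x0 (D0 x) = D0 x := fun x => DFunLike.congr_fun t2 x
  have t3' : ∀ x, D0 (F0 (Pi M x0 x)) = Pi M x0 x := fun x => DFunLike.congr_fun t3 x
  have hproj : ∀ x ∈ M, ∀ (i j : Fin 3) (v : E K), P i x (P j x v) = if i = j then P i x v else 0 := by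
    intro x hx i j v
    have h := DFunLike.congr_fun (hPH.proj x hx i j) v
    have h' : P i x (P j x v) = (if i = j then P i x else 0) v := h
    rw [h']
    split_ifs <;> rfl
  have hsum : ∀ x ∈ M, ∀ v : E K, P 0 x v + P 1 x v + P 2 x v = Pi M x v := by
    intro x hx v
    exact DFunLike.congr_fun (hPH.sum x hx) v
  have hTA : ∀ v, Pi M x0 (P 2 x0 v) = P 2 x0 v := by
    intro v
    rw [← hsum x0 hxM, hproj x0 hxM, hproj x0 hxM, hproj x0 hxM]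
    simp
  have hAT : ∀ v, P 2 x0 (Pi M x0 v) = P 2 x0 v := by
    intro v
    rw [← hsum x0 hxM, map_add, map_add, hproj x0 hxM, hproj x0 hxM, hproj x0 hxM]
    simp
  have hA : ∀ v, P 2 x0 (P 2 x0 v) = P 2 x0 v := by
    intro v
    rw [hproj x0 hxM, if_pos rfl]
  obtain ⟨w, Ξ, hΞ⟩ := coords D0 F0 (Pi M x0) (P 2 x0) t3' hTA hAT hA hru
  -- the linear map `L`
  obtain ⟨L, hL⟩ : ∃ L : E u →L[ℝ] E N, ∀ a, L a = Ξ (a, 0) :=
    ⟨(Ξ : (E u × E w) →L[ℝ] E N) ∘L (ContinuousLinearMap.inl ℝ (E u) (E w)), fun a => rfl⟩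
  have hLsub : ∀ (a a' : E u) (b : E w), Ξ (a', b) - Ξ (a, b) = L (a' - a) := by
    intro a a' b
    rw [hL, ← map_sub]
    congr 1
    ext1 <;> simp
  obtain ⟨c0, hc0, hc0L⟩ : ∃ c0 : ℝ, 0 < c0 ∧ ∀ a, c0 * ‖a‖ ≤ ‖D0 (L a)‖ := by
    refine ⟨(‖((Ξ.symm : E N ≃L[ℝ] (E u × E w)) : E N →L[ℝ] (E u × E w))‖ * ‖F0‖ + 1)⁻¹,
      by positivity, fun a => ?_⟩
    have h1 : ‖a‖ ≤ ‖((Ξ.symm : E N ≃L[ℝ] (E u × E w)) : E N →L[ℝ] (E u × E w))‖ *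
        (‖F0‖ * ‖D0 (L a)‖) := by
      have e1 : Ξ.symm (F0 (D0 (L a))) = (a, 0) := by
        rw [t1', hL, ContinuousLinearEquiv.symm_apply_apply]
      have e2 : ‖a‖ ≤ ‖((a, 0) : E u × E w)‖ := le_max_left _ _
      refine e2.trans ?_
      rw [← e1]
      refine (ContinuousLinearMap.le_opNorm
        ((Ξ.symm : E N ≃L[ℝ] (E u × E w)) : E N →L[ℝ] (E u × E w)) _).trans ?_
      exact mul_le_mul_of_nonneg_left (ContinuousLinearMap.le_opNorm _ _) (norm_nonneg _)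
    have h2 : 0 < ‖((Ξ.symm : E N ≃L[ℝ] (E u × E w)) : E N →L[ℝ] (E u × E w))‖ * ‖F0‖ + 1 := by
      positivity
    rw [inv_mul_le_iff₀ h2]
    nlinarith [norm_nonneg (D0 (L a))]
  obtain ⟨Cu, hCu⟩ : ∃ Cu, Cu = ‖D0‖ * ‖L‖ + 1 := ⟨_, rfl⟩
  have hCu1 : 1 ≤ Cu := by rw [hCu]; have := norm_nonneg D0; have := norm_nonneg L; nlinarith
  have hCuL : ∀ a, ‖D0 (L a)‖ ≤ Cu * ‖a‖ := by
    intro a
    have h1 := ContinuousLinearMap.le_opNorm D0 (L a)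
    have h2 := mul_le_mul_of_nonneg_left (ContinuousLinearMap.le_opNorm L a) (norm_nonneg D0)
    rw [hCu]
    nlinarith [norm_nonneg a]
  -- constants
  obtain ⟨q, hq⟩ : ∃ q : ℝ, q = 2 * (‖P 0 x0 + P 1 x0‖ + ‖P 2 x0‖ + 1) := ⟨_, rfl⟩
  have hq0 : 0 < q := by
    rw [hq]
    have := norm_nonneg (P 0 x0 + P 1 x0)
    have := norm_nonneg (P 2 x0)
    linarith
  obtain ⟨ε, hε⟩ : ∃ ε : ℝ, ε = c0 / (q * (‖L‖ + 1)) := ⟨_, rfl⟩
  have hL1 : 0 < ‖L‖ + 1 := by have := norm_nonneg L; linarith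
  have hε0 : 0 < ε := by rw [hε]; positivity
  have hψ1 : ContDiffAt ℝ ∞ c.ψ z0 := c.smoothψ.contDiffAt (c.openV.mem_nhds hz0)
  have hstr : HasStrictFDerivAt c.ψ D0 z0 := by
    rw [hD0]
    exact hψ1.hasStrictFDerivAt (by simp)
  obtain ⟨s, hs, hsε⟩ := hstr.approximates_deriv_on_nhds (c := ⟨ε, hε0.le⟩)
    (Or.inr (by exact_mod_cast hε0))
  have hcont : ∀ i, ∀ᶠ z in 𝓝 z0, ‖P i (c.ψ z) - P i x0‖ < 1 / 12 := by
    intro i
    have h1 : ContinuousOn (fun z => P i (c.ψ z)) c.V :=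
      (hPH.cont i).comp c.smoothψ.continuousOn fun z hz => (c.mapsψ z hz).1
    have h2 : ContinuousAt (fun z => P i (c.ψ z)) z0 := h1.continuousAt (c.openV.mem_nhds hz0)
    have h3 : Tendsto (fun z => ‖P i (c.ψ z) - P i (c.ψ z0)‖) (𝓝 z0) (𝓝 0) := by
      have := (h2.tendsto.sub_const (P i (c.ψ z0))).norm
      simpa using this
    rw [hx0]
    exact h3.eventually (gt_mem_nhds (by norm_num))
  obtain ⟨r1, hr1, hball⟩ : ∃ r1 : ℝ, 0 < r1 ∧ ∀ z, ‖z - z0‖ < r1 → z ∈ c.V ∧ z ∈ s ∧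
      ∀ i, ‖P i (c.ψ z) - P i x0‖ < 1 / 12 := by
    have h0 : ∀ᶠ z in 𝓝 z0, z ∈ c.V := c.openV.mem_nhds hz0
    have h0' : ∀ᶠ z in 𝓝 z0, z ∈ s := hs
    have h0'' : ∀ᶠ z in 𝓝 z0, ∀ i, ‖P i (c.ψ z) - P i x0‖ < 1 / 12 :=
      Filter.eventually_all.2 hcont
    have h1 : ∀ᶠ z in 𝓝 z0, z ∈ c.V ∧ z ∈ s ∧ ∀ i, ‖P i (c.ψ z) - P i x0‖ < 1 / 12 :=
      h0.and (h0'.and h0'')
    obtain ⟨r1, hr1, h2⟩ := Metric.eventually_nhds_iff.1 h1
    exact ⟨r1, hr1, fun z hz => h2 (by rwa [dist_eq_norm])⟩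
  obtain ⟨nΞ, hnΞ⟩ : ∃ n : ℝ, n = ‖(Ξ : (E u × E w) →L[ℝ] E N)‖ + 1 := ⟨_, rfl⟩
  have hnΞ0 : 0 < nΞ := by
    rw [hnΞ]; have := norm_nonneg (Ξ : (E u × E w) →L[ℝ] E N); linarith
  obtain ⟨r, hr⟩ : ∃ r : ℝ, r = r1 / nΞ := ⟨_, rfl⟩
  have hr0 : 0 < r := by rw [hr]; positivity
  have hsmall : ∀ (a : E u) (b : E w), ‖a‖ < r → ‖b‖ < r → ‖(z0 + Ξ (a, b)) - z0‖ < r1 := by
    intro a b ha hb
    rw [add_sub_cancel_left]
    have h1 : ‖Ξ (a, b)‖ ≤ ‖(Ξ : (E u × E w) →L[ℝ] E N)‖ * ‖((a, b) : E u × E w)‖ :=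
      ContinuousLinearMap.le_opNorm (Ξ : (E u × E w) →L[ℝ] E N) _
    have h2 : ‖((a, b) : E u × E w)‖ < r := max_lt ha hb
    have h3 : r * nΞ = r1 := by rw [hr]; field_simp
    have h4 : ‖(Ξ : (E u × E w) →L[ℝ] E N)‖ * ‖((a, b) : E u × E w)‖ ≤
        ‖(Ξ : (E u × E w) →L[ℝ] E N)‖ * r :=
      mul_le_mul_of_nonneg_left h2.le (norm_nonneg _)
    calc ‖Ξ (a, b)‖ ≤ ‖(Ξ : (E u × E w) →L[ℝ] E N)‖ * r := h1.trans h4
      _ < r * nΞ := by rw [hnΞ]; nlinarith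
      _ = r1 := h3
  obtain ⟨lam, hlam⟩ : ∃ lam : ℝ, lam = min (c0 / 2) (1 / (2 * Cu)) := ⟨_, rfl⟩
  have hlam0 : 0 < lam := by
    rw [hlam]
    exact lt_min (by positivity) (by positivity)
  refine ⟨w, Ξ, r, lam, hr0, hlam0, fun a b ha hb => (hball _ (hsmall a b ha hb)).1, ?_⟩
  intro b hb
  classical
  obtain ⟨g, hg⟩ : ∃ g : E u → M, ∀ a, ‖a‖ < r → (g a : E K) = c.ψ (z0 + Ξ (a, b)) := by
    refine ⟨fun a => if h : ‖a‖ < r then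
      ⟨c.ψ (z0 + Ξ (a, b)), (c.mapsψ _ (hball _ (hsmall a b h hb)).1).1⟩ else ⟨x0, hxM⟩,
      fun a ha => ?_⟩
    have h1 : (if h : ‖a‖ < r then (⟨c.ψ (z0 + Ξ (a, b)),
        (c.mapsψ _ (hball _ (hsmall a b h hb)).1).1⟩ : M) else ⟨x0, hxM⟩) =
        ⟨c.ψ (z0 + Ξ (a, b)), (c.mapsψ _ (hball _ (hsmall a b ha hb)).1).1⟩ := dif_pos ha
    exact congrArg Subtype.val h1
  have hest : ∀ a a' : E u, ‖a‖ < r → ‖a'‖ < r →
      c0 / 2 * ‖a' - a‖ ≤ ‖(g a' : E K) - g a‖ ∧ ‖(g a' : E K) - g a‖ ≤ 2 * Cu * ‖a' - a‖ ∧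
      ‖(P 0 (g a) + P 1 (g a)) ((g a' : E K) - g a)‖ ≤ ‖P 2 (g a) ((g a' : E K) - g a)‖ := by
    intro a a' ha ha'
    have hz := hball _ (hsmall a b ha hb)
    have hz' := hball _ (hsmall a' b ha' hb)
    have hyd : (z0 + Ξ (a', b)) - (z0 + Ξ (a, b)) = L (a' - a) := by
      rw [add_sub_add_left_eq_sub, hLsub]
    refine cone_est (P 0 (g a) + P 1 (g a)) (P 0 x0 + P 1 x0) (P 2 (g a)) (P 2 x0)
      (D0 (L (a' - a))) ((g a' : E K) - g a) c0 (ε * ‖L‖) ‖a' - a‖ Cu ?_ ?_ ?_ ?_ hc0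
      (norm_nonneg _) (hc0L _) (hCuL _) ?_ ?_ ?_
    · rw [hL]
      exact hΞ _
    · have h1 : D0 (L (a' - a)) = P 2 x0 (D0 (L (a' - a))) := by
        rw [hL]
        exact (hΞ _).symm
      rw [h1]
      change P 0 x0 (P 2 x0 _) + P 1 x0 (P 2 x0 _) = 0
      rw [hproj x0 hxM, hproj x0 hxM]
      simp
    · rw [hg a ha]
      have e1 := (hz.2.2 0).le
      have e2 := (hz.2.2 1).le
      have e3 : P 0 (c.ψ (z0 + Ξ (a, b))) + P 1 (c.ψ (z0 + Ξ (a, b))) - (P 0 x0 + P 1 x0) =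
          (P 0 (c.ψ (z0 + Ξ (a, b))) - P 0 x0) + (P 1 (c.ψ (z0 + Ξ (a, b))) - P 1 x0) := by
        abel
      rw [e3]
      refine (norm_add_le _ _).trans ?_
      linarith
    · rw [hg a ha]
      exact (hz.2.2 2).le
    · have h1 : ‖c.ψ (z0 + Ξ (a', b)) - c.ψ (z0 + Ξ (a, b)) -
          D0 ((z0 + Ξ (a', b)) - (z0 + Ξ (a, b)))‖ ≤
          ε * ‖(z0 + Ξ (a', b)) - (z0 + Ξ (a, b))‖ := hsε _ hz'.2.1 _ hz.2.1
      rw [hyd, ← hg a ha, ← hg a' ha'] at h1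
      refine h1.trans ?_
      have h2 : ‖L (a' - a)‖ ≤ ‖L‖ * ‖a' - a‖ := ContinuousLinearMap.le_opNorm _ _
      rw [mul_assoc]
      exact mul_le_mul_of_nonneg_left h2 hε0.le
    · rw [← hq, hε]
      have h1 : c0 / (q * (‖L‖ + 1)) * ‖L‖ * q = c0 * (‖L‖ / (‖L‖ + 1)) := by
        field_simp
      rw [h1]
      have h2 : ‖L‖ / (‖L‖ + 1) ≤ 1 := by
        rw [div_le_one hL1]
        linarith
      nlinarith
    · exact mul_nonneg hε0.le (norm_nonneg _)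
  have hmap : ∀ a : E u, HasFDerivAt (fun a : E u => z0 + Ξ (a, b)) L a := by
    intro a
    have h1 : (fun a : E u => z0 + Ξ (a, b)) = fun a => (z0 + Ξ (0, b)) + L a := by
      funext a
      have := hLsub 0 a b
      rw [sub_zero] at this
      rw [← this]
      abel
    rw [h1]
    exact L.hasFDerivAt.const_add _
  refine ⟨g, fun a => (fderiv ℝ c.ψ (z0 + Ξ (a, b))) ∘L L, hg, ?_⟩
  have hTpt : ∀ a : E u, ‖a‖ < r → ∀ v, Pi M (g a) (fderiv ℝ c.ψ (z0 + Ξ (a, b)) v) =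
      fderiv ℝ c.ψ (z0 + Ξ (a, b)) v := by
    intro a ha v
    rw [hg a ha]
    exact DFunLike.congr_fun (hT1 N K M c _ (hball _ (hsmall a b ha hb)).1).2.1 v
  refine ⟨?_, ?_, ?_, ?_, ?_, ?_, ?_⟩
  · intro a ha
    have hz := (hball _ (hsmall a b ha hb)).1
    have h1 : HasFDerivAt c.ψ (fderiv ℝ c.ψ (z0 + Ξ (a, b))) (z0 + Ξ (a, b)) :=
      ((c.smoothψ.contDiffAt (c.openV.mem_nhds hz)).differentiableAt (by simp)).hasFDerivAt
    have h2 := h1.comp a (hmap a)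
    refine h2.congr_of_eventuallyEq ?_
    have h3 : ∀ᶠ a' in 𝓝 a, ‖a'‖ < r :=
      (continuous_norm.continuousAt (x := a)).eventually (gt_mem_nhds ha)
    exact h3.mono fun a' ha' => hg a' ha'
  · have h1 : ContinuousOn (fderiv ℝ c.ψ) c.V :=
      c.smoothψ.continuousOn_fderiv_of_isOpen c.openV (by simp)
    have h2 : ContinuousOn (fun a : E u => fderiv ℝ c.ψ (z0 + Ξ (a, b))) (Metric.ball 0 r) := by
      refine h1.comp (fun a _ => (hmap a).continuousAt.continuousWithinAt) ?_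
      intro a ha
      rw [mem_ball_zero_iff] at ha
      exact (hball _ (hsmall a b ha hb)).1
    exact h2.clm_comp continuousOn_const
  · intro a ha
    ext1 v
    exact hTpt a ha (L v)
  · intro a a' ha ha'
    have h1 := (hest a' a ha' ha).1
    refine le_trans ?_ h1
    refine mul_le_mul_of_nonneg_right ?_ (norm_nonneg _)
    rw [hlam]
    exact min_le_left _ _
  · intro a a' ha ha'
    have h1 := (hest a' a ha' ha).2.1
    refine h1.trans ?_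
    refine mul_le_mul_of_nonneg_right ?_ (norm_nonneg _)
    rw [le_inv_comm₀ (by positivity) hlam0, hlam]
    refine (min_le_right _ _).trans ?_
    rw [one_div]
  · intro a a' ha ha'
    exact (hest a a' ha ha').2.2
  · intro a ha
    have hz := hball _ (hsmall a b ha hb)
    have hgM : (g a : E K) ∈ M := (g a).2
    have h1 : ‖P 2 (g a) - P 2 x0‖ < 1 := by
      rw [hg a ha]
      exact (hz.2.2 2).trans (by norm_num)
    have h2 : ‖P 2 x0 - P 2 (g a)‖ < 1 := by rwa [norm_sub_rev]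
    rw [← hru]
    refine le_antisymm (rank_close _ _ ?_ h1) (rank_close _ _ hA h2)
    intro v
    rw [hproj (g a) hgM, if_pos rfl]

end Pool.Agent.Helper55.RZ
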