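import Pool.Agent.Helper56.RZ.GoalsA

set_option autoImplicit false

open Set Filter Topology MeasureTheory

namespace Pool.Agent.Helper55.RZ

open Pool.Agent.Helper56.RZ

variable {K : ℕ}

/-- the determinant of a continuous endomorphism -/
noncomputable def dt (A : End K) : ℝ := LinearMap.det (A : E K →ₗ[ℝ] E K)

theorem dt_mul (A B : End K) : dt (A * B) = dt A * dt B := by
  unfold dt
  rw [← LinearMap.det_comp]
  rfl

theorem dt_adjoint (A : End K) : dt (ContinuousLinearMap.adjoint A) = dt A := by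
  unfold dt
  have h1 : ((ContinuousLinearMap.adjoint A : End K) : E K →ₗ[ℝ] E K)
      = LinearMap.adjoint (A : E K →ₗ[ℝ] E K) := rfl
  rw [h1]
  have b : OrthonormalBasis (Fin K) ℝ (E K) := EuclideanSpace.basisFun (Fin K) ℝ
  rw [← LinearMap.det_toMatrix b.toBasis, ← LinearMap.det_toMatrix b.toBasis,
    LinearMap.toMatrix_adjoint, Matrix.det_conjTranspose]
  simp

theorem nn_inner (T P : End K) (v w : E K) :
    inner ℝ (NN T P v) w = inner ℝ (T (P v)) (T (P w)) + inner ℝ ((1 - P) v) ((1 - P) w) := by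
  have h1 : NN T P v = ContinuousLinearMap.adjoint (T * P) ((T * P) v)
    + ContinuousLinearMap.adjoint (1 - P) ((1 - P) v) := rfl
  rw [h1, inner_add_left, ContinuousLinearMap.adjoint_inner_left,
    ContinuousLinearMap.adjoint_inner_left]
  rfl

theorem nn_sym (T P : End K) : (NN T P : E K →ₗ[ℝ] E K).IsSymmetric := by
  intro v w
  have h1 : inner ℝ (NN T P v) w = inner ℝ v (NN T P w) := by
    rw [nn_inner, real_inner_comm (NN T P w) v, nn_inner, real_inner_comm (T (P v)),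
      real_inner_comm ((1 - P) v)]
  exact h1

theorem nn_pos (T P : End K) : (NN T P : E K →ₗ[ℝ] E K).IsPositive := by
  refine ⟨nn_sym T P, fun v => ?_⟩
  have h0 : 0 ≤ inner ℝ (NN T P v) v := by
    rw [nn_inner]
    exact add_nonneg (real_inner_self_nonneg (x := T (P v)))
      (real_inner_self_nonneg (x := (1 - P) v))
  exact h0

theorem fin_rank : Module.finrank ℝ (E K) = K := by simp

theorem dt_eq (T P : End K) :
    dt (NN T P) = ∏ i, (nn_sym T P).eigenvalues fin_rank i := by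
  unfold dt
  rw [(nn_sym T P).det_eq_prod_eigenvalues fin_rank]
  rfl

theorem dt_nonneg (T P : End K) : 0 ≤ dt (NN T P) := by
  rw [dt_eq]
  exact Finset.prod_nonneg fun i _ => (nn_pos T P).nonneg_eigenvalues fin_rank i

theorem eig_eq (T P : End K) (i : Fin K) :
    (nn_sym T P).eigenvalues fin_rank i =
      inner ℝ (NN T P ((nn_sym T P).eigenvectorBasis fin_rank i))
        ((nn_sym T P).eigenvectorBasis fin_rank i) := by
  have h1 := (nn_sym T P).apply_eigenvectorBasis fin_rank i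
  have h2 : NN T P ((nn_sym T P).eigenvectorBasis fin_rank i)
    = ((nn_sym T P).eigenvalues fin_rank i : ℝ) • ((nn_sym T P).eigenvectorBasis fin_rank i) := h1
  rw [h2, inner_smul_left, real_inner_self_eq_norm_sq, OrthonormalBasis.norm_eq_one]
  simp

theorem nn_lower (P : End K) (v : E K) : ‖v‖ ^ 2 / 2 ≤ inner ℝ (NN 1 P v) v := by
  rw [nn_inner, real_inner_self_eq_norm_sq, real_inner_self_eq_norm_sq]
  have h1 : v = P v + (1 - P) v := by
    rw [sub_apply]
    simp
  have h2 : ‖v‖ ≤ ‖P v‖ + ‖(1 - P) v‖ := by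
    calc ‖v‖ = ‖P v + (1 - P) v‖ := by rw [← h1]
      _ ≤ _ := norm_add_le _ _
  have h3 : (1 : End K) (P v) = P v := rfl
  rw [h3]
  nlinarith [sq_nonneg (‖P v‖ - ‖(1 - P) v‖), norm_nonneg v, norm_nonneg (P v),
    norm_nonneg ((1 - P) v)]

theorem dt_lower (P : End K) : (1 / 2 : ℝ) ^ K ≤ dt (NN 1 P) := by
  rw [dt_eq]
  calc (1 / 2 : ℝ) ^ K = ∏ _i : Fin K, (1 / 2 : ℝ) := by simp
    _ ≤ _ := by
      refine Finset.prod_le_prod (fun _ _ => by norm_num) fun i _ => ?_
      rw [eig_eq]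
      have h1 := nn_lower P ((nn_sym 1 P).eigenvectorBasis fin_rank i)
      rw [OrthonormalBasis.norm_eq_one] at h1
      linarith

theorem dt_pos_one (P : End K) : 0 < dt (NN 1 P) :=
  lt_of_lt_of_le (by positivity) (dt_lower P)

theorem jac_eq (T P : End K) : Jac T P = Real.sqrt (dt (NN T P) / dt (NN 1 P)) := rfl

/-- change of variables -/
theorem dt_conj {W N N' : End K}
    (h : ContinuousLinearMap.adjoint W * N * W = N') : dt N' = dt W ^ 2 * dt N := by
  rw [← h, dt_mul, dt_mul, dt_adjoint]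
  ring

theorem conj_of {W : End K} {S P T Q : End K}
    (h : ∀ v w, inner ℝ (S (Q (W v))) (S (Q (W w))) + inner ℝ ((1 - Q) (W v)) ((1 - Q) (W w))
      = inner ℝ (T (P v)) (T (P w)) + inner ℝ ((1 - P) v) ((1 - P) w)) :
    ContinuousLinearMap.adjoint W * NN S Q * W = NN T P := by
  ext1 v
  refine ext_inner_right ℝ fun w => ?_
  rw [nn_inner, ← h]
  change inner ℝ ((ContinuousLinearMap.adjoint W) (NN S Q (W v))) w = _
  rw [ContinuousLinearMap.adjoint_inner_left, nn_inner]

/-- an isometry which maps the kernel of one projection to the kernel of the other one -/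
theorem exists_iso (P Q : End K)
    (h : Module.finrank ℝ (LinearMap.range (P : E K →ₗ[ℝ] E K)) =
      Module.finrank ℝ (LinearMap.range (Q : E K →ₗ[ℝ] E K))) :
    ∃ X : E K →ₗᵢ[ℝ] E K, ∀ v, P v = 0 → Q (X v) = 0 := by
  have hP := LinearMap.finrank_range_add_finrank_ker (P : E K →ₗ[ℝ] E K)
  have hQ := LinearMap.finrank_range_add_finrank_ker (Q : E K →ₗ[ℝ] E K)
  have hk : Module.finrank ℝ (LinearMap.ker (Q : E K →ₗ[ℝ] E K)) =
      Module.finrank ℝ (LinearMap.ker (P : E K →ₗ[ℝ] E K)) := by omega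
  let e : LinearMap.ker (P : E K →ₗ[ℝ] E K) ≃ₗᵢ[ℝ] LinearMap.ker (Q : E K →ₗ[ℝ] E K) :=
    (stdOrthonormalBasis ℝ (LinearMap.ker (P : E K →ₗ[ℝ] E K))).repr.trans
      ((stdOrthonormalBasis ℝ (LinearMap.ker (Q : E K →ₗ[ℝ] E K))).reindex
        (finCongr hk)).repr.symm
  let L : LinearMap.ker (P : E K →ₗ[ℝ] E K) →ₗᵢ[ℝ] E K :=
    (LinearMap.ker (Q : E K →ₗ[ℝ] E K)).subtypeₗᵢ.comp e.toLinearIsometry
  refine ⟨L.extend, fun v hv => ?_⟩
  have h1 : v ∈ LinearMap.ker (P : E K →ₗ[ℝ] E K) := hv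
  have h2 := LinearIsometry.extend_apply L ⟨v, h1⟩
  have h3 : L.extend v = L ⟨v, h1⟩ := h2
  rw [h3]
  have h4 : L ⟨v, h1⟩ = ((e ⟨v, h1⟩ : LinearMap.ker (Q : E K →ₗ[ℝ] E K)) : E K) := rfl
  rw [h4]
  exact (e ⟨v, h1⟩).2

theorem j1 : StmtJ1 := by
  intro K S T P Q hP hQ hTP _ hr
  obtain ⟨X, hX⟩ := exists_iso P Q hr
  set W : End K := T * P + X.toContinuousLinearMap * (1 - P) with hW
  have hPv : ∀ v, P (P v) = P v := fun v => by
    have := congrArg (fun A : End K => A v) hP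
    exact this
  have hQTP : ∀ v, Q (T (P v)) = T (P v) := fun v => by
    have := congrArg (fun A : End K => A v) hTP
    exact this
  have h1P : ∀ v : E K, (1 - P) v = v - P v := fun v => rfl
  have h1Q : ∀ v : E K, (1 - Q) v = v - Q v := fun v => rfl
  have hWv : ∀ v, W v = T (P v) + X ((1 - P) v) := fun v => rfl
  have hQX : ∀ v, Q (X ((1 - P) v)) = 0 := fun v => by
    refine hX _ ?_
    rw [h1P, map_sub, hPv, sub_self]
  have hQW : ∀ v, Q (W v) = T (P v) := fun v => by
    rw [hWv, map_add, hQTP, hQX, add_zero]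
  have hQW' : ∀ v, (1 - Q) (W v) = X ((1 - P) v) := fun v => by
    rw [h1Q, hQW, hWv]
    abel
  have key : ∀ S' : End K, dt (NN (S' * T) P) = dt W ^ 2 * dt (NN S' Q) := by
    intro S'
    refine dt_conj (conj_of fun v w => ?_)
    rw [hQW, hQW, hQW', hQW', LinearIsometry.inner_map_map]
    rfl
  have k1 := key S
  have k2 := key 1
  rw [one_mul] at k2
  rw [jac_eq, jac_eq, jac_eq, k1, k2, ← Real.sqrt_mul (div_nonneg (dt_nonneg _ _) (dt_nonneg _ _))]
  congr 1
  have h1 := (dt_pos_one Q).ne'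
  have h2 := (dt_pos_one P).ne'
  field_simp

end Pool.Agent.Helper55.RZ
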