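import Pool.Agent.Helper55.RZ.J1

set_option autoImplicit false

open Set Filter Topology MeasureTheory

namespace Pool.Agent.Helper55.RZ

open Pool.Agent.Helper56.RZ

variable {K : ℕ}

theorem ker_zero {T P : End K} (hT : ∀ v, P v = v → T v = 0 → v = 0) {v : E K}
    (hv : NN T P v = 0) : v = 0 := by
  have h1 : inner ℝ (NN T P v) v = (0 : ℝ) := by rw [hv, inner_zero_left]
  rw [nn_inner, real_inner_self_eq_norm_sq, real_inner_self_eq_norm_sq] at h1
  have h2 : ‖T (P v)‖ ^ 2 = 0 := by nlinarith [sq_nonneg ‖T (P v)‖, sq_nonneg ‖(1 - P) v‖]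
  have h3 : ‖(1 - P) v‖ ^ 2 = 0 := by nlinarith [sq_nonneg ‖T (P v)‖, sq_nonneg ‖(1 - P) v‖]
  have h4 : T (P v) = 0 := by simpa using h2
  have h5 : (1 - P) v = 0 := by simpa using h3
  have h6 : v - P v = 0 := h5
  have h7 : P v = v := (sub_eq_zero.mp h6).symm
  rw [h7] at h4
  exact hT v h7 h4

theorem dt_ne {A : End K} (h : ∀ v, A v = 0 → v = 0) : dt A ≠ 0 := by
  have h1 : LinearMap.ker (A : E K →ₗ[ℝ] E K) = ⊥ := by
    rw [LinearMap.ker_eq_bot']
    intro v hv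
    exact h v hv
  have h2 : IsUnit (LinearMap.det (A : E K →ₗ[ℝ] E K)) := by
    rw [← LinearMap.isUnit_iff_isUnit_det, LinearMap.isUnit_iff_ker_eq_bot]
    exact h1
  exact h2.ne_zero

theorem nn_upper (T P : End K) (v : E K) :
    inner ℝ (NN T P v) v ≤ (‖T * P‖ ^ 2 + ‖1 - P‖ ^ 2) * ‖v‖ ^ 2 := by
  rw [nn_inner, real_inner_self_eq_norm_sq, real_inner_self_eq_norm_sq]
  have h1 : ‖T (P v)‖ ≤ ‖T * P‖ * ‖v‖ := (T * P).le_opNorm v
  have h2 : ‖(1 - P) v‖ ≤ ‖(1 - P : End K)‖ * ‖v‖ := (1 - P : End K).le_opNorm v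
  have h3 : ‖T (P v)‖ ^ 2 ≤ (‖T * P‖ * ‖v‖) ^ 2 := pow_le_pow_left₀ (norm_nonneg _) h1 2
  have h4 : ‖(1 - P) v‖ ^ 2 ≤ (‖(1 - P : End K)‖ * ‖v‖) ^ 2 :=
    pow_le_pow_left₀ (norm_nonneg _) h2 2
  linarith [mul_pow ‖T * P‖ ‖v‖ 2, mul_pow ‖(1 - P : End K)‖ ‖v‖ 2]

theorem dt_upper (T P : End K) : dt (NN T P) ≤ (‖T * P‖ ^ 2 + ‖1 - P‖ ^ 2) ^ K := by
  rw [dt_eq]
  calc _ ≤ ∏ _i : Fin K, (‖T * P‖ ^ 2 + ‖1 - P‖ ^ 2) := by
        refine Finset.prod_le_prod (fun i _ => (nn_pos T P).nonneg_eigenvalues fin_rank i)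
          fun i _ => ?_
        rw [eig_eq]
        have h1 := nn_upper T P ((nn_sym T P).eigenvectorBasis fin_rank i)
        rw [OrthonormalBasis.norm_eq_one] at h1
        linarith
    _ = _ := by simp

theorem jac_sq (T P : End K) : Jac T P ^ 2 = dt (NN T P) / dt (NN 1 P) := by
  rw [jac_eq, Real.sq_sqrt (div_nonneg (dt_nonneg _ _) (dt_nonneg _ _))]

theorem j2 : StmtJ2 := by
  intro K T P hP
  have hPv : ∀ v, P (P v) = P v := fun v => by
    have := congrArg (fun A : End K => A v) hP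
    exact this
  refine ⟨fun hPTP => ?_, fun hT => ?_, ?_, ?_⟩
  · have hTv : ∀ v, P (T (P v)) = T (P v) := fun v => by
      have := congrArg (fun A : End K => A v) hPTP
      exact this
    have h1P : ∀ v : E K, (1 - P) v = v - P v := fun v => rfl
    set W : End K := T * P + 1 - P with hW
    have hWv : ∀ v, W v = T (P v) + v - P v := fun v => rfl
    have hPW : ∀ v, P (W v) = T (P v) := fun v => by
      rw [hWv, map_sub, map_add, hTv, hPv]
      abel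
    have hPW' : ∀ v, (1 - P) (W v) = (1 - P) v := fun v => by
      rw [h1P, hPW, hWv, h1P]
      abel
    have key : dt (NN T P) = dt W ^ 2 * dt (NN 1 P) := by
      refine dt_conj (conj_of fun v w => ?_)
      rw [hPW, hPW, hPW', hPW']
      rfl
    have h2 := (dt_pos_one P).ne'
    rw [jac_eq, key, mul_div_assoc, div_self h2, mul_one, Real.sqrt_sq_eq_abs]
    rfl
  · rw [jac_eq]
    refine Real.sqrt_pos.mpr (div_pos ?_ (dt_pos_one P))
    exact lt_of_le_of_ne (dt_nonneg T P) (Ne.symm (dt_ne fun v hv => ker_zero hT hv))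
  · have h1 : NN (T * P) P = NN T P := by
      unfold NN
      rw [mul_assoc, hP]
    rw [jac_eq, jac_eq, h1]
  · rw [jac_sq, mul_pow, div_le_iff₀ (dt_pos_one P)]
    have h1 := dt_upper T P
    have h2 := dt_lower P
    have h3 : (0 : ℝ) ≤ (‖T * P‖ ^ 2 + ‖1 - P‖ ^ 2) ^ K := by positivity
    calc dt (NN T P) ≤ (‖T * P‖ ^ 2 + ‖1 - P‖ ^ 2) ^ K := h1
      _ = 2 ^ K * (‖T * P‖ ^ 2 + ‖1 - P‖ ^ 2) ^ K * (1 / 2) ^ K := by
        rw [mul_right_comm, ← mul_pow]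
        norm_num
      _ ≤ _ := mul_le_mul_of_nonneg_left h2 (by positivity)

end Pool.Agent.Helper55.RZ
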