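import Pool.Agent.Helper56.RZ.GoalsB

set_option autoImplicit false

open Set Filter Topology MeasureTheory

open scoped ContDiff

namespace Pool.Agent.Helper55.RZ

open Pool.Agent.Helper56.RZ

variable {K : ℕ} {M : Set (E K)}

theorem isDiffeo_swap {f f' : E K → E K} (h : IsDiffeo 1 M f f') : IsDiffeo 1 M f' f :=
  ⟨h.maps', h.maps, h.right, h.left, h.smooth', h.smooth⟩

theorem rep_inv {C : Coc M K} {f f' : E K → E K} (h : Rep C f f') : Rep C.inv f' f := by
  refine ⟨fun x => ?_, fun x => ?_, fun x => ?_, fun x => ?_, fun x => ?_⟩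
  · exact h.rf' x
  · exact h.rf x
  · exact h.rB x
  · exact h.rA x
  · exact h.rT x

theorem iter_coe {C : Coc M K} {f f' : E K → E K} (h : Rep C f f') (n : ℕ) (x : M) :
    ((C.f^[n] x : M) : E K) = f^[n] x := by
  induction n with
  | zero => rfl
  | succ n ih =>
    rw [Function.iterate_succ_apply', Function.iterate_succ_apply', h.rf, ih]

theorem iter_maps {f f' : E K → E K} (h : IsDiffeo 1 M f f') (n : ℕ) : MapsTo (f^[n]) M M :=
  h.maps.iterate n

theorem iter_smooth {f f' : E K → E K} (h : IsDiffeo 1 M f f') (n : ℕ) :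
    ContDiffOn ℝ 1 (f^[n]) M := by
  induction n with
  | zero => exact contDiffOn_id
  | succ n ih =>
    rw [Function.iterate_succ']
    exact h.smooth.comp ih (iter_maps h n)

theorem diff_within {f : E K → E K} (h : ContDiffOn ℝ 1 f M) {x : E K} (hx : x ∈ M) :
    DifferentiableWithinAt ℝ f M x :=
  (h.differentiableOn one_ne_zero) x hx

theorem an_eq (hT2 : StmtT2) {C : Coc M K} {f f' : E K → E K} (hd : IsDiffeo 1 M f f')
    (hr : Rep C f f') (n : ℕ) (x : M) : C.An n x = der M (f^[n]) x := by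
  induction n with
  | zero =>
    have h1 : C.An 0 x = C.T x := rfl
    rw [h1, hr.rT x, Function.iterate_zero]
    exact ((hT2 K M f f x x.2).2.2.2.1).symm
  | succ n ih =>
    have h1 : C.An (n + 1) x = C.A (C.f^[n] x) * C.An n x := rfl
    rw [h1, ih, hr.rA, iter_coe hr, Function.iterate_succ']
    have h2 := (hT2 K M f (f^[n]) x x.2).2.2.1 (iter_maps hd n)
      (diff_within (iter_smooth hd n) x.2)
      (diff_within hd.smooth (iter_maps hd n x.2))
    exact h2.symm

theorem t5 (hT2 : StmtT2) : StmtT5 := by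
  intro K M f f' C hd hr
  have hAn : ∀ (n : ℕ) (x : M), C.An n x = der M (f^[n]) x ∧ C.inv.An n x = der M (f'^[n]) x :=
    fun n x => ⟨an_eq hT2 hd hr n x, an_eq hT2 (isDiffeo_swap hd) (rep_inv hr) n x⟩
  refine ⟨rep_inv hr, ?_, hAn, ?_, ?_⟩
  · intro H h h' hh hH
    have e : H.T = C.T := by
      funext x
      rw [hH.rT x, hr.rT x]
    refine ⟨e, fun x => ?_, fun x => ?_, fun x => ?_, fun x => ?_, fun x => ?_⟩
    · change ((C.f (H.f x) : M) : E K) = f (h x)
      rw [hr.rf, hH.rf]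
    · change ((H.f.symm (C.f.symm x) : M) : E K) = h' (f' x)
      rw [hH.rf', hr.rf']
    · change C.A (H.f x) * H.A x = der M (f ∘ h) x
      rw [hr.rA, hH.rA, hH.rf]
      exact ((hT2 K M f h x x.2).2.2.1 hh.maps (diff_within hh.smooth x.2)
        (diff_within hd.smooth (hh.maps x.2))).symm
    · change H.B (C.f.symm x) * C.B x = der M (h' ∘ f') x
      rw [hH.rB, hr.rB, hr.rf']
      exact ((hT2 K M h' f' x x.2).2.2.1 hd.maps' (diff_within hd.smooth' x.2)
        (diff_within hh.smooth' (hd.maps' x.2))).symm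
    · exact hr.rT x
  · intro P hP
    refine ⟨⟨fun i => ?_, fun x i j => hP.proj x x.2 i j, fun x => ?_, fun x i => hP.ne x x.2 i,
      fun x i => ?_⟩, ?_⟩
    · exact continuousOn_iff_continuous_domRestrict.mp (hP.cont i)
    · rw [hr.rT x]
      exact hP.sum x x.2
    · rw [hr.rA x, hr.rf x]
      exact hP.inv x x.2 i
    · obtain ⟨n, hn, hdom⟩ := hP.dom
      refine ⟨n, hn, fun x => ?_⟩
      rw [(hAn n x).1, (hAn n x).2]
      exact hdom x x.2
  · intro Q' n hS hD
    classical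
    have hval : ∀ (i : Fin 3) (x : M),
        (fun (i : Fin 3) (x : E K) => if h : x ∈ M then Q' i ⟨x, h⟩ else 0) i (x : E K) = Q' i x := by
      intro i x
      simp
    set Q : Fin 3 → E K → End K := fun i x => if h : x ∈ M then Q' i ⟨x, h⟩ else 0 with hQ
    refine ⟨Q, hval, ⟨fun i => ?_, fun x hx i j => ?_, fun x hx => ?_, fun x hx i => ?_,
      fun x hx i => ?_, ?_⟩⟩
    · rw [continuousOn_iff_continuous_domRestrict]
      have h1 : M.domRestrict (Q i) = Q' i := by
        funext x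
        exact hval i x
      rw [h1]
      exact hS.cont i
    · have h1 := hS.proj ⟨x, hx⟩ i j
      rw [← hval i ⟨x, hx⟩, ← hval j ⟨x, hx⟩] at h1
      exact h1
    · have h1 := hS.sum ⟨x, hx⟩
      rw [← hval 0 ⟨x, hx⟩, ← hval 1 ⟨x, hx⟩, ← hval 2 ⟨x, hx⟩, hr.rT] at h1
      exact h1
    · have h1 := hS.ne ⟨x, hx⟩ i
      rw [← hval i ⟨x, hx⟩] at h1
      exact h1
    · have h1 := hS.inv ⟨x, hx⟩ i
      rw [← hval i ⟨x, hx⟩, ← hval i (C.f ⟨x, hx⟩), hr.rA, hr.rf] at h1
      exact h1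
    · refine ⟨n, hD.1, fun x hx => ?_⟩
      have h1 := hD.2 ⟨x, hx⟩
      rw [(hAn n ⟨x, hx⟩).1, (hAn n ⟨x, hx⟩).2, ← hval 0 ⟨x, hx⟩, ← hval 1 ⟨x, hx⟩,
        ← hval 2 ⟨x, hx⟩] at h1
      exact h1

end Pool.Agent.Helper55.RZ
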