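import Pool.Agent.Helper56.RZ.GoalsA

set_option autoImplicit false

open Set Filter Topology MeasureTheory Asymptotics

namespace Pool.Agent.Helper55.RZ

open Pool.Agent.Helper56.RZ

section alg
variable {A : Type} [Ring A]

theorem r1 (a b p T : A) (hp : p * p = p) :
    p - b * T * a = - ((b - p) * T * a + p * (T - 1) * a + p * (a - p)) := by
  have h : p * (a - p) = p * a - p := by rw [mul_sub, hp]
  rw [h]
  noncomm_ring

theorem r2 (a b p T Γ : A) (ha : a * a = a) :
    (a - p) * (a * Γ) + (p - b * T * a) * (a * Γ) = a * Γ - b * T * (a * Γ) := by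
  have h : (a - p) * (a * Γ) = a * Γ - p * (a * Γ) := by rw [sub_mul, ← mul_assoc, ha]
  have h' : (p - b * T * a) * (a * Γ) = p * (a * Γ) - b * T * (a * Γ) := by
    rw [sub_mul, mul_assoc (b * T) a, ← mul_assoc a a, ha]
  rw [h, h']
  abel

theorem r3 (a b T Γ : A) (ha : a * a = a) : (b * T * a) * (a * Γ) = b * T * (a * Γ) := by
  rw [mul_assoc (b * T) a, ← mul_assoc a a, ha]

theorem r4 (a0 a1 a2 b T Γ : A) (has : a0 + a1 + a2 = 1) (h1 : a1 * Γ = a1) :
    b * T * Γ = b * T * (a0 * Γ) + b * T * a1 + b * T * (a2 * Γ) := by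
  calc b * T * Γ = b * T * ((a0 + a1 + a2) * Γ) := by rw [has, one_mul]
    _ = b * T * (a0 * Γ) + b * T * (a1 * Γ) + b * T * (a2 * Γ) := by noncomm_ring
    _ = _ := by rw [h1]

theorem r5 (a0 a1 a2 b p2 p1 T M Γ : A) (has : a0 + a1 + a2 = 1) (h1 : a1 * Γ = a1)
    (h00 : a0 * a0 = a0) (h22 : a2 * a2 = a2) :
    a2 * Γ + p2 * M * p1 = (a2 - p2) * (a2 * Γ)
        + (p2 - b * T * a2) * (a2 * Γ)
        + (b * T * Γ - (b * T * a0) * (a0 * Γ) - (b * T * a1 - p2 * M * p1)) := by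
  rw [r2 a2 b p2 T Γ h22, r3 a0 b T Γ h00, r4 a0 a1 a2 b T Γ has h1]
  abel

theorem r6 (a0 a1 a2 b p2 p1 T M Γ : A) (has : a0 + a1 + a2 = 1) (h1 : a1 * Γ = a1)
    (h00 : a0 * a0 = a0) (h22 : a2 * a2 = a2) (p22 : p2 * p2 = p2) :
    b * T * Γ - b * T * a1 + p1 * M * p2 * M * p1
      = (b * T * a0) * (a0 * Γ) + ((b * T * a2 - p1 * M * p2) * (a2 * Γ)
        + (p1 * M * p2) * (a2 * Γ + p2 * M * p1)) := by
  have q4 : (b * T * a2 - p1 * M * p2) * (a2 * Γ)
        + (p1 * M * p2) * (a2 * Γ + p2 * M * p1)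
        = b * T * (a2 * Γ) + p1 * M * p2 * M * p1 := by
    calc (b * T * a2 - p1 * M * p2) * (a2 * Γ)
          + (p1 * M * p2) * (a2 * Γ + p2 * M * p1)
          = b * T * ((a2 * a2) * Γ) + p1 * M * (p2 * p2) * M * p1 := by noncomm_ring
      _ = _ := by rw [h22, p22]
  rw [q4, r3 a0 b T Γ h00, r4 a0 a1 a2 b T Γ has h1]
  abel

/-- the product -/
theorem r7 (X Y X0 Y0 q a r : A) :
    X * Y - a - (r - q) = (X - X0 + q) * Y + ((X0 - q) * (Y - Y0 + q)
      + ((X0 * Y0 - a - r - q) + ((q - q * Y0) + ((q - X0 * q) + q * q)))) := by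
  noncomm_ring

theorem r8 (a1 b0 b1 b2 p0 p1 p2 S T M : A) (hb : b0 + b1 + b2 = 1) (h00 : b0 * b0 = b0)
    (h11 : b1 * b1 = b1) (h22 : b2 * b2 = b2) (p00 : p0 * p0 = p0) (p22 : p2 * p2 = p2)
    (ha : a1 * a1 = a1) (hST : S * T = 1) :
    (a1 * S * b1) * (b1 * T * a1) - a1 - p1 * M * p0 * M * p1 - p1 * M * p2 * M * p1
      = (p1 * M * p0) * (b0 * T * a1 - p0 * M * p1)
        - (a1 * S * b0 + p1 * M * p0) * (b0 * T * a1)
        + ((p1 * M * p2) * (b2 * T * a1 - p2 * M * p1)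
        - (a1 * S * b2 + p1 * M * p2) * (b2 * T * a1)) := by
  have e1 : a1 = (a1 * S * b0) * (b0 * T * a1) + (a1 * S * b1) * (b1 * T * a1)
      + (a1 * S * b2) * (b2 * T * a1) := by
    calc a1 = a1 * (S * T) * a1 := by rw [hST, mul_one, ha]
      _ = a1 * S * (b0 + b1 + b2) * T * a1 := by rw [hb]; noncomm_ring
      _ = a1 * S * (b0 * b0 + b1 * b1 + b2 * b2) * T * a1 := by rw [h00, h11, h22]
      _ = _ := by noncomm_ring
  have e2 : (p1 * M * p0) * (p0 * M * p1) = p1 * M * p0 * M * p1 := by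
    calc (p1 * M * p0) * (p0 * M * p1) = p1 * M * (p0 * p0) * M * p1 := by noncomm_ring
      _ = _ := by rw [p00]
  have e3 : (p1 * M * p2) * (p2 * M * p1) = p1 * M * p2 * M * p1 := by
    calc (p1 * M * p2) * (p2 * M * p1) = p1 * M * (p2 * p2) * M * p1 := by noncomm_ring
      _ = _ := by rw [p22]
  have e4 : (a1 * S * b1) * (b1 * T * a1) = a1 - (a1 * S * b0) * (b0 * T * a1)
      - (a1 * S * b2) * (b2 * T * a1) := by
    nth_rewrite 3 [e1]
    abel
  rw [e4, mul_sub, mul_sub, e2, e3, add_mul, add_mul]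
  abel

theorem n1 (x y z w : A) : w - x * (-y) * z = w + x * y * z := by
  rw [mul_neg, neg_mul, sub_neg_eq_add]

theorem n2 (x y z w : A) : x * (-y) * z * (-y) * w = x * y * z * y * w := by
  simp only [mul_neg, neg_mul, neg_neg]

end alg

theorem sm1 {N : ℕ} (A B C : End N) (t : ℝ) : A * (t • B) * C = t • (A * B * C) := by
  ext1 v
  change A (t • B (C v)) = t • A (B (C v))
  rw [map_smul]

theorem sm2 {N : ℕ} (A B C M : End N) (t : ℝ) :
    A * (t • M) * B * (t • M) * C = (t ^ 2) • (A * M * B * M * C) := by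
  ext1 v
  change A (t • M (B (t • M (C v)))) = (t ^ 2) • A (M (B (M (C v))))
  rw [map_smul, map_smul, map_smul, map_smul, smul_smul, sq]

theorem sm3 {N : ℕ} (t : ℝ) (X Y : End N) : t • X - t • Y = t • (X - Y) := by
  ext1 v
  exact (smul_sub t (X v) (Y v)).symm

section step
variable {ι : Type} {N : ℕ}

/-- the expansion of `b 1 T Γ` -/
theorem stepA (a b p : Fin 3 → ι → End N) (T M Γ : ι → End N) (t η : ι → ℝ)
    (ha : ∀ i j, a i * a j = if i = j then a i else 0) (has : a 0 + a 1 + a 2 = 1)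
    (hp : ∀ i j, p i * p j = if i = j then p i else 0)
    (oa : ∀ i, a i =O[⊤] (fun _ => (1 : ℝ)))
    (op : ∀ i, p i =O[⊤] (fun _ => (1 : ℝ))) (oT : T =O[⊤] (fun _ => (1 : ℝ)))
    (oη : η =O[⊤] (fun _ => (1 : ℝ))) (otb : t =O[⊤] (fun _ => (1 : ℝ)))
    (oM : M =O[⊤] t)
    (hap : ∀ i, (a i - p i) =O[⊤] η) (hbp : ∀ i, (b i - p i) =O[⊤] η) (hT : (T - 1) =O[⊤] η)
    (hij : ∀ i j, i ≠ j → (b i * T * a j - p i * M * p j) =O[⊤] fun s => η s * t s)
    (h1 : a 1 * Γ = a 1) (h0 : (a 0 * Γ) =O[⊤] fun s => η s * t s)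
    (h2 : (b 2 * T * Γ) =O[⊤] fun s => η s * t s) (hΓ : (Γ - a 1) =O[⊤] t) :
    (b 1 * T * Γ - b 1 * T * a 1 + p 1 * M * p 2 * M * p 1) =O[⊤] fun s => η s * t s * t s := by
  have e02 : a 2 * a 1 = 0 := by simpa using ha 2 1
  have e22 : a 2 * a 2 = a 2 := by simpa using ha 2 2
  have e00 : a 0 * a 0 = a 0 := by simpa using ha 0 0
  have p22 : p 2 * p 2 = p 2 := by simpa using hp 2 2
  have ot : t =O[⊤] t := isBigO_refl _ _
  have oηt : (fun s => η s * t s) =O[⊤] t := by
    have := oη.mul ot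
    simpa using this
  -- `a 2 Γ = O(t)`
  have o1 : (a 2 * Γ) =O[⊤] t := by
    have e : a 2 * Γ = a 2 * (Γ - a 1) := by rw [mul_sub, e02, sub_zero]
    rw [e]
    have := (oa 2).mul hΓ
    simpa using this
  -- `p 2 - b 2 T a 2 = O(η)`
  have o2 : (p 2 - b 2 * T * a 2) =O[⊤] η := by
    have e := r1 (a 2) (b 2) (p 2) T p22
    rw [e]
    refine IsBigO.neg_left (IsBigO.add (IsBigO.add ?_ ?_) ?_)
    · have := ((hbp 2).mul oT).mul (oa 2)
      simpa using this
    · have := ((op 2).mul hT).mul (oa 2)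
      simpa using this
    · have := (op 2).mul (hap 2)
      simpa using this
  -- the blocks
  have o3 : ∀ i j, (p i * M * p j) =O[⊤] t := by
    intro i j
    have := ((op i).mul oM).mul (op j)
    simpa using this
  have o4 : ∀ i j, i ≠ j → (b i * T * a j) =O[⊤] t := by
    intro i j h
    have e : b i * T * a j = (b i * T * a j - p i * M * p j) + p i * M * p j := by abel
    rw [e]
    exact ((hij i j h).trans oηt).add (o3 i j)
  have oη1 : (fun s => t s * (η s * t s)) =O[⊤] fun s => η s * t s * t s :=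
    isBigO_of_le _ fun s => by rw [show t s * (η s * t s) = η s * t s * t s by ring]
  -- `a 2 Γ + p 2 M p 1`
  have key : (a 2 * Γ + p 2 * M * p 1) =O[⊤] fun s => η s * t s := by
    have e := r5 (a 0) (a 1) (a 2) (b 2) (p 2) (p 1) T M Γ has h1 e00 e22
    rw [e]
    refine IsBigO.add (IsBigO.add ?_ ?_) (IsBigO.sub (IsBigO.sub h2 ?_) (hij 2 1 (by decide)))
    · exact (hap 2).mul o1
    · exact o2.mul o1
    · have k1 := (o4 2 0 (by decide)).mul h0
      refine k1.trans ?_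
      have k2 : (fun s => t s * (η s * t s)) =O[⊤] fun s => η s * t s := by
        have k3 : t =O[⊤] fun _ => (1 : ℝ) := otb
        have := k3.mul (isBigO_refl (fun s => η s * t s) ⊤)
        simpa using this
      exact k2
  -- the conclusion
  have e := r6 (a 0) (a 1) (a 2) (b 1) (p 2) (p 1) T M Γ has h1 e00 e22 p22
  rw [e]
  refine IsBigO.add ?_ (IsBigO.add ?_ ?_)
  · exact ((o4 1 0 (by decide)).mul h0).trans oη1
  · exact (hij 1 2 (by decide)).mul o1
  · exact ((o3 1 2).mul key).trans oη1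

end step

/-- the parameters in packet L1 -/
structure Par (N : ℕ) (R : ℝ) where
  a : Fin 3 → End N
  b : Fin 3 → End N
  p : Fin 3 → End N
  T : End N
  S : End N
  M : End N
  G : End N
  G' : End N
  t : ℝ
  η : ℝ
  t0 : 0 < t
  t1 : t ≤ 1
  η0 : 0 ≤ η
  ηR : η ≤ R
  ha : Proj3 a
  hb : Proj3 b
  hp : Proj3 p
  np : ∀ i, ‖p i‖ ≤ R
  nM : ‖M‖ ≤ R
  TS : T * S = 1
  ST : S * T = 1
  nap : ∀ i, ‖a i - p i‖ ≤ η
  nbp : ∀ i, ‖b i - p i‖ ≤ η
  nT : ‖T - 1‖ ≤ η
  nS : ‖S - 1‖ ≤ η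
  nij : ∀ i j, i ≠ j → ‖b i * T * a j - t • (p i * M * p j)‖ ≤ η * t
  nji : ∀ i j, i ≠ j → ‖a i * S * b j + t • (p i * M * p j)‖ ≤ η * t
  g1 : G * a 1 = G
  g2 : a 1 * G = a 1
  g1' : G' * b 1 = G'
  g2' : b 1 * G' = b 1
  n1 : ‖a 0 * G‖ ≤ η * t
  n2 : ‖b 2 * T * G‖ ≤ η * t
  n3 : ‖G - a 1‖ ≤ R * t
  n1' : ‖b 0 * G'‖ ≤ η * t
  n2' : ‖a 2 * S * G'‖ ≤ η * t
  n3' : ‖G' - b 1‖ ≤ R * t

theorem ob {ι : Type} {N : ℕ} {f : ι → End N} {g : ι → ℝ} (C : ℝ) (hg : ∀ s, 0 ≤ g s)
    (h : ∀ s, ‖f s‖ ≤ C * g s) : f =O[⊤] g :=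
  IsBigO.of_bound C (Eventually.of_forall fun s => by
    rw [Real.norm_of_nonneg (hg s)]
    exact h s)

theorem l1 : StmtL1 := by
  intro N R
  let a : Fin 3 → Par N R → End N := fun i s => s.a i
  let b : Fin 3 → Par N R → End N := fun i s => s.b i
  let p : Fin 3 → Par N R → End N := fun i s => s.p i
  let T : Par N R → End N := fun s => s.T
  let S : Par N R → End N := fun s => s.S
  let M : Par N R → End N := fun s => s.t • s.M
  let G : Par N R → End N := fun s => s.G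
  let G' : Par N R → End N := fun s => s.G'
  let t : Par N R → ℝ := fun s => s.t
  let η : Par N R → ℝ := fun s => s.η
  have ht : ∀ s : Par N R, 0 ≤ t s := fun s => s.t0.le
  have hη : ∀ s : Par N R, 0 ≤ η s := fun s => s.η0
  have hηt : ∀ s : Par N R, 0 ≤ η s * t s := fun s => mul_nonneg (hη s) (ht s)
  have h1 : ∀ _s : Par N R, (0 : ℝ) ≤ 1 := fun _ => zero_le_one
  have hA : ∀ i j, a i * a j = if i = j then a i else 0 := by
    intro i j
    funext s
    have := s.ha.proj i j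
    change s.a i * s.a j = _
    rw [this]
    split_ifs <;> rfl
  have hB : ∀ i j, b i * b j = if i = j then b i else 0 := by
    intro i j
    funext s
    have := s.hb.proj i j
    change s.b i * s.b j = _
    rw [this]
    split_ifs <;> rfl
  have hP : ∀ i j, p i * p j = if i = j then p i else 0 := by
    intro i j
    funext s
    have := s.hp.proj i j
    change s.p i * s.p j = _
    rw [this]
    split_ifs <;> rfl
  have hAs : a 0 + a 1 + a 2 = 1 := by
    funext s
    exact s.ha.sum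
  have hBs : b 0 + b 1 + b 2 = 1 := by
    funext s
    exact s.hb.sum
  have oη : η =O[⊤] fun _ => (1 : ℝ) :=
    IsBigO.of_bound R (Eventually.of_forall fun s => by
      rw [Real.norm_of_nonneg (hη s)]
      simpa using s.ηR)
  have ot : t =O[⊤] fun _ => (1 : ℝ) :=
    IsBigO.of_bound 1 (Eventually.of_forall fun s => by
      rw [Real.norm_of_nonneg (ht s)]
      simpa using s.t1)
  have op : ∀ i, p i =O[⊤] fun _ => (1 : ℝ) := fun i =>
    ob R h1 fun s => by simpa using s.np i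
  have oap : ∀ i, (a i - p i) =O[⊤] η := fun i =>
    ob 1 hη fun s => by simpa using s.nap i
  have obp : ∀ i, (b i - p i) =O[⊤] η := fun i =>
    ob 1 hη fun s => by simpa using s.nbp i
  have oa : ∀ i, a i =O[⊤] fun _ => (1 : ℝ) := fun i => by
    have h := ((oap i).trans oη).add (op i)
    simpa using h
  have obb : ∀ i, b i =O[⊤] fun _ => (1 : ℝ) := fun i => by
    have h := ((obp i).trans oη).add (op i)
    simpa using h
  have o1 : (1 : Par N R → End N) =O[⊤] fun _ => (1 : ℝ) :=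
    ob ‖(1 : End N)‖ h1 fun s => by simp
  have oT1 : (T - 1) =O[⊤] η := ob 1 hη fun s => by simpa using s.nT
  have oS1 : (S - 1) =O[⊤] η := ob 1 hη fun s => by simpa using s.nS
  have oT : T =O[⊤] fun _ => (1 : ℝ) := by
    have h := (oT1.trans oη).add o1
    simpa using h
  have oS : S =O[⊤] fun _ => (1 : ℝ) := by
    have h := (oS1.trans oη).add o1
    simpa using h
  have oM : M =O[⊤] t := ob R ht fun s => by
    change ‖s.t • s.M‖ ≤ R * s.t
    rw [norm_smul, Real.norm_of_nonneg s.t0.le, mul_comm]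
    exact mul_le_mul_of_nonneg_right s.nM s.t0.le
  have oM' : (-M) =O[⊤] t := oM.neg_left
  have oij : ∀ i j, i ≠ j → (b i * T * a j - p i * M * p j) =O[⊤] fun s => η s * t s :=
    fun i j h => ob 1 hηt fun s => by
      have h' := s.nij i j h
      rw [one_mul]
      change ‖s.b i * s.T * s.a j - s.p i * (s.t • s.M) * s.p j‖ ≤ s.η * s.t
      rw [sm1]
      exact h'
  have oji : ∀ i j, i ≠ j → (a i * S * b j + p i * M * p j) =O[⊤] fun s => η s * t s :=
    fun i j h => ob 1 hηt fun s => by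
      have h' := s.nji i j h
      rw [one_mul]
      change ‖s.a i * s.S * s.b j + s.p i * (s.t • s.M) * s.p j‖ ≤ s.η * s.t
      rw [sm1]
      exact h'
  have og : (G - a 1) =O[⊤] t := ob R ht fun s => s.n3
  have og' : (G' - b 1) =O[⊤] t := ob R ht fun s => s.n3'
  have on1 : (a 0 * G) =O[⊤] fun s => η s * t s := ob 1 hηt fun s => by simpa using s.n1
  have on2 : (b 2 * T * G) =O[⊤] fun s => η s * t s := ob 1 hηt fun s => by simpa using s.n2
  have on1' : (b 0 * G') =O[⊤] fun s => η s * t s := ob 1 hηt fun s => by simpa using s.n1'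
  have on2' : (a 2 * S * G') =O[⊤] fun s => η s * t s := ob 1 hηt fun s => by simpa using s.n2'
  have hg2 : a 1 * G = a 1 := by
    funext s
    exact s.g2
  have hg2' : b 1 * G' = b 1 := by
    funext s
    exact s.g2'
  have kY := stepA a b p T M G t η hA hAs hP oa op oT oη ot oM oap obp oT1 oij hg2 on1 on2 og
  have kX0 := stepA b a p S (-M) G' t η hB hBs hP obb op oS oη ot oM' obp oap oS1
    (fun i j h => by
      rw [n1 (p i) M (p j) (a i * S * b j)]
      exact oji i j h) hg2' on1' on2' og'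
  rw [n2 (p 1) M (p 2) (p 1)] at kX0
  -- abbreviations
  let g : Par N R → ℝ := fun s => (η s + t s) * t s ^ 2
  have hgn : ∀ s, 0 ≤ g s := fun s =>
    mul_nonneg (add_nonneg (hη s) (ht s)) (sq_nonneg _)
  have l1g : (fun s => η s * t s * t s) =O[⊤] g := by
    refine IsBigO.of_bound 1 (Eventually.of_forall fun s => ?_)
    rw [Real.norm_of_nonneg (mul_nonneg (hηt s) (ht s)), Real.norm_of_nonneg (hgn s), one_mul]
    change s.η * s.t * s.t ≤ (s.η + s.t) * s.t ^ 2
    nlinarith [pow_pos s.t0 3]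
  have l2g : (fun s => t s * t s * (t s * t s)) =O[⊤] g := by
    refine IsBigO.of_bound 1 (Eventually.of_forall fun s => ?_)
    rw [Real.norm_of_nonneg (by have := ht s; positivity), Real.norm_of_nonneg (hgn s), one_mul]
    change s.t * s.t * (s.t * s.t) ≤ (s.η + s.t) * s.t ^ 2
    have h2 : s.t ^ 3 * s.t ≤ s.t ^ 3 * 1 := mul_le_mul_of_nonneg_left s.t1 (pow_pos s.t0 3).le
    nlinarith [mul_nonneg s.η0 (sq_nonneg s.t)]
  have l3g : (fun s => t s * t s * η s) =O[⊤] g := by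
    refine IsBigO.of_bound 1 (Eventually.of_forall fun s => ?_)
    rw [Real.norm_of_nonneg (by have := ht s; have := hη s; positivity),
      Real.norm_of_nonneg (hgn s), one_mul]
    change s.t * s.t * s.η ≤ (s.η + s.t) * s.t ^ 2
    nlinarith [pow_pos s.t0 3]
  have l4g : (fun s => η s * (t s * t s)) =O[⊤] g := by
    refine l3g.congr_left fun s => ?_
    ring
  have opm : ∀ i j, (p i * M * p j) =O[⊤] t := by
    intro i j
    have := ((op i).mul oM).mul (op j)
    simpa using this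
  have oηt : (fun s => η s * t s) =O[⊤] t := by
    have := oη.mul (isBigO_refl t ⊤)
    simpa using this
  have oba : ∀ i j, i ≠ j → (b i * T * a j) =O[⊤] t := by
    intro i j h
    have e : b i * T * a j = (b i * T * a j - p i * M * p j) + p i * M * p j := by abel
    rw [e]
    exact ((oij i j h).trans oηt).add (opm i j)
  have oq : (p 1 * M * p 2 * M * p 1) =O[⊤] fun s => t s * t s := by
    have h := ((opm 1 2).mul oM).mul (op 1)
    simpa using h
  have oq1 : (p 1 * M * p 2 * M * p 1) =O[⊤] fun _ => (1 : ℝ) := by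
    refine oq.trans ?_
    simpa using ot.mul ot
  have oX0 : (a 1 * S * b 1) =O[⊤] fun _ => (1 : ℝ) := by
    simpa using ((oa 1).mul oS).mul (obb 1)
  have oG : G =O[⊤] fun _ => (1 : ℝ) := by
    have h := (og.trans ot).add (oa 1)
    simpa using h
  have oY : (b 1 * T * G) =O[⊤] fun _ => (1 : ℝ) := by
    simpa using ((obb 1).mul oT).mul oG
  have p11 : p 1 * p 1 = p 1 := by simpa using hP 1 1
  -- `p 1 - Y0`, `p 1 - X0`
  have oY0 : (p 1 - b 1 * T * a 1) =O[⊤] η := by
    rw [r1 (a 1) (b 1) (p 1) T p11]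
    refine IsBigO.neg_left (IsBigO.add (IsBigO.add ?_ ?_) ?_)
    · simpa using ((obp 1).mul oT).mul (oa 1)
    · simpa using ((op 1).mul oT1).mul (oa 1)
    · simpa using (op 1).mul (oap 1)
  have oX0' : (p 1 - a 1 * S * b 1) =O[⊤] η := by
    rw [r1 (b 1) (a 1) (p 1) S p11]
    refine IsBigO.neg_left (IsBigO.add (IsBigO.add ?_ ?_) ?_)
    · simpa using ((oap 1).mul oS).mul (obb 1)
    · simpa using ((op 1).mul oS1).mul (obb 1)
    · simpa using (op 1).mul (obp 1)
  have main : (a 1 * S * G' * (b 1 * T * G) - a 1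
      - (p 1 * M * p 0 * M * p 1 - p 1 * M * p 2 * M * p 1)) =O[⊤] g := by
    rw [r7 (a 1 * S * G') (b 1 * T * G) (a 1 * S * b 1) (b 1 * T * a 1)
      (p 1 * M * p 2 * M * p 1) (a 1) (p 1 * M * p 0 * M * p 1)]
    refine IsBigO.add ?_ (IsBigO.add ?_ (IsBigO.add ?_ (IsBigO.add ?_ (IsBigO.add ?_ ?_))))
    · have h := (kX0.trans l1g).mul oY
      simpa using h
    · have h := (oX0.sub oq1).mul (kY.trans l1g)
      simpa using h
    · have hST : S * T = 1 := by
        funext s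
        exact s.ST
      rw [r8 (a 1) (b 0) (b 1) (b 2) (p 0) (p 1) (p 2) S T M hBs (by simpa using hB 0 0)
        (by simpa using hB 1 1) (by simpa using hB 2 2) (by simpa using hP 0 0)
        (by simpa using hP 2 2) (by simpa using hA 1 1) hST]
      have u : ∀ i, i ≠ (1 : Fin 3) → ((p 1 * M * p i) * (b i * T * a 1 - p i * M * p 1)
          - (a 1 * S * b i + p 1 * M * p i) * (b i * T * a 1)) =O[⊤] g := by
        intro i hi
        refine IsBigO.sub ?_ ?_
        · refine ((opm 1 i).mul (oij i 1 hi)).trans ?_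
          refine l3g.congr_left fun s => ?_
          ring
        · exact ((oji 1 i hi.symm).mul (oba i 1 hi)).trans l1g
      exact (u 0 (by decide)).add (u 2 (by decide))
    · have e : p 1 * M * p 2 * M * p 1 - p 1 * M * p 2 * M * p 1 * (b 1 * T * a 1)
          = p 1 * M * p 2 * M * p 1 * (p 1 - b 1 * T * a 1) := by
        rw [mul_sub, mul_assoc (p 1 * M * p 2 * M) (p 1) (p 1), p11]
      rw [e]
      exact (oq.mul oY0).trans l3g
    · have e : p 1 * M * p 2 * M * p 1 - a 1 * S * b 1 * (p 1 * M * p 2 * M * p 1)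
          = (p 1 - a 1 * S * b 1) * (p 1 * M * p 2 * M * p 1) := by
        have e' : p 1 * (p 1 * M * p 2 * M * p 1) = p 1 * M * p 2 * M * p 1 := by
          simp only [← mul_assoc]
          rw [p11]
        rw [sub_mul, e']
      rw [e]
      exact (oX0'.mul oq).trans l4g
    · exact (oq.mul oq).trans l2g
  obtain ⟨C, hC⟩ := isBigO_top.mp main
  refine ⟨max C 1, le_max_right _ _, ?_⟩
  intro a' b' p' T' S' M' Γ Γ' t' η' h01 h02 h03 h04 h05 h06 h07 h08 h09 h10 h11 h12 h13 h14 h15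
    h16 h17 h18 h19 h20 h21 h22 h23 h24 h25 h26 h27
  have hs := hC ⟨a', b', p', T', S', M', Γ, Γ', t', η', h01, h02, h03, h04, h05, h06, h07, h08,
    h09, h10, h11, h12, h13, h14, h15, h16, h17, h18, h19, h20, h21, h22, h23, h24, h25, h26,
    h27⟩
  rw [Real.norm_of_nonneg (hgn _)] at hs
  have hs' : ‖a' 1 * S' * Γ' * (b' 1 * T' * Γ) - a' 1 - (p' 1 * (t' • M') * p' 0 * (t' • M') * p' 1
      - p' 1 * (t' • M') * p' 2 * (t' • M') * p' 1)‖ ≤ C * ((η' + t') * t' ^ 2) := hs
  rw [sm2, sm2, sm3] at hs'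
  have e2 : a' 1 * S' * Γ' * b' 1 * T' * Γ = a' 1 * S' * Γ' * (b' 1 * T' * Γ) := by
    simp only [mul_assoc]
  rw [e2]
  refine hs'.trans ?_
  rw [mul_assoc (max C 1)]
  exact mul_le_mul_of_nonneg_right (le_max_left _ _)
    (mul_nonneg (add_nonneg h03 h01.le) (sq_nonneg _))

end Pool.Agent.Helper55.RZ
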